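import Pool.Agent.H195.ET.Defs

namespace H195.ET
open Finset Filter

/-- log of the number of partial functions. -/
theorem log_partials (m g T : ℕ) (x : ℝ) (hx0 : 0 < x) (hx1 : x ≤ 1)
    (hP : 0 < (partials m g T).card) :
    Real.log (partials m g T).card ≤ m * Real.log (1 + g * x) + T * Real.log (1 / x) := by
  have h1 := partial_count m g T x hx0 hx1
  have h2 : (0 : ℝ) < (partials m g T).card := by exact_mod_cast hP
  have h3 : (0 : ℝ) < 1 + g * x := by positivity
  have h4 := Real.log_le_log (by positivity) h1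
  rw [Real.log_mul h2.ne' (by positivity), Real.log_pow, Real.log_pow] at h4
  rw [one_div, Real.log_inv]
  linarith

/-- The parameter `R`. -/
theorem floor_bounds {g h m : ℕ} (hg : 2 ≤ g) (κ : ℝ) (hκ : 0 < κ) {B : Set ℕ}
    (hcon : ∀ n ≤ h * g ^ m, (rep B h n : ℝ) < (g : ℝ) ^ (κ * m)) :
    ∃ R K : ℕ, (∀ n ≤ h * g ^ m, rep B h n ≤ R) ∧ 2 * R < 2 ^ (K + 1) ∧ 1 ≤ R ∧
      Real.log R ≤ κ * m * Real.log g ∧ (K : ℝ) ≤ 1 + κ * m * Real.log g / Real.log 2 := by
  have hg0 : (1 : ℝ) ≤ g := by exact_mod_cast (by omega : 1 ≤ g)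
  have h1 : (1 : ℝ) ≤ (g : ℝ) ^ (κ * m) := Real.one_le_rpow hg0 (by positivity)
  set R := ⌊(g : ℝ) ^ (κ * m)⌋₊ with hR
  have hR1 : 1 ≤ R := Nat.le_floor (by simpa using h1)
  have hRle : (R : ℝ) ≤ (g : ℝ) ^ (κ * m) := Nat.floor_le (by positivity)
  have hRpos : (0 : ℝ) < R := by exact_mod_cast hR1
  have hlogR : Real.log R ≤ κ * m * Real.log g := by
    have := Real.log_le_log hRpos hRle
    rwa [Real.log_rpow (by linarith)] at this
  refine ⟨R, Nat.log 2 (2 * R), ?_, Nat.lt_pow_succ_log_self (by norm_num) _, hR1, hlogR, ?_⟩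
  · intro n hn
    exact Nat.le_floor (hcon n hn).le
  · have h2 : 2 ^ Nat.log 2 (2 * R) ≤ 2 * R := Nat.pow_log_le_self 2 (by omega)
    have h3 : ((2 : ℝ)) ^ Nat.log 2 (2 * R) ≤ 2 * R := by exact_mod_cast h2
    have h4 := Real.log_le_log (by positivity) h3
    rw [Real.log_pow, Real.log_mul (by norm_num) hRpos.ne'] at h4
    have hl2 : 0 < Real.log 2 := Real.log_pos (by norm_num)
    have h5 : (Nat.log 2 (2 * R) : ℝ) ≤ (Real.log 2 + κ * m * Real.log g) / Real.log 2 := by
      rw [le_div_iff₀ hl2]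
      linarith
    rw [add_div, div_self hl2.ne'] at h5
    exact h5

theorem blocks_large (g h : ℕ) (hg : 2 ≤ g) (hh : 2 ≤ h) (γ β : ℝ)
    (hβγ : β * Real.log (h * (g - 1) + 1) < h * γ * Real.log g) :
    ∃ κ : ℝ, 0 < κ ∧ ∃ m₀ : ℕ, ∀ m ≥ m₀, ∀ B : Set ℕ, FewBlocks g β m B →
      (g : ℝ) ^ (γ * m) ≤ B.ncard → ∃ n ≤ h * g ^ m, (g : ℝ) ^ (κ * m) ≤ rep B h n := by
  set lam := Real.log g with hlam
  have hg1 : (1 : ℝ) < g := by exact_mod_cast (by omega : 1 < g)
  have hlam0 : 0 < lam := Real.log_pos hg1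
  have hl2 : 0 < Real.log 2 := Real.log_pos (by norm_num)
  have hh0 : (0 : ℝ) < h := by exact_mod_cast (by omega : 0 < h)
  have hg0 : (0 : ℝ) < g := by linarith
  set q := Real.log ((h : ℝ) * (g - 1) + 1) with hq
  set Δ := h * γ * lam - β * q with hΔ
  have hΔ0 : 0 < Δ := by linarith
  set x := min 1 (Δ / (4 * h * g)) with hx
  have hx0 : 0 < x := lt_min one_pos (by positivity)
  have hx1 : x ≤ 1 := min_le_left _ _
  have hx2 : h * g * x ≤ Δ / 4 := by
    have : x ≤ Δ / (4 * h * g) := min_le_right _ _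
    calc h * g * x ≤ h * g * (Δ / (4 * h * g)) := by gcongr
      _ = Δ / 4 := by field_simp
  set y := Real.log (1 / x) with hy
  have hy0 : 0 ≤ y := Real.log_nonneg (by rw [le_div_iff₀ hx0]; linarith)
  set κ := Δ / (4 * (2 * h * y * (lam / Real.log 2) + lam)) with hκ
  have hκ0 : 0 < κ := by positivity
  have hκ1 : κ * (2 * h * y * (lam / Real.log 2) + lam) = Δ / 4 := by
    rw [hκ]; field_simp
  set C := 2 * h * y + Real.log (h.factorial) with hC
  refine ⟨κ, hκ0, ⌈2 * C / Δ⌉₊ + 1, ?_⟩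
  intro m hm B hB hBc
  by_contra hcon
  push Not at hcon
  obtain ⟨π, hπ, hBc'⟩ := hB
  obtain ⟨R, K, hR, hK, hR1, hlogR, hKle⟩ := floor_bounds hg κ hκ0 hcon
  have hcount := blocks_nat hh hg hBc' hR hK
  set J := ((range m).image π).card with hJ
  set P := (partials m g (2 * K)).card with hP
  have hBpos : (0 : ℝ) < B.ncard := lt_of_lt_of_le (by positivity) hBc
  have hBpos' : 0 < B.ncard := by exact_mod_cast hBpos
  have hPpos : 0 < P := by
    by_contra h0
    have h0' : P = 0 := by omega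
    rw [h0', zero_pow (by omega), zero_mul] at hcount
    have := Nat.pow_pos (n := h) hBpos'
    omega
  have hcast : ((B.ncard : ℝ)) ^ h ≤ (P : ℝ) ^ h * ((h.factorial * R) * ((h : ℝ) * (g - 1) + 1) ^ J) := by
    have h1 : (((h * (g - 1) + 1 : ℕ)) : ℝ) = (h : ℝ) * (g - 1) + 1 := by
      push_cast [Nat.cast_sub (by omega : 1 ≤ g)]
      ring
    rw [← h1]
    exact_mod_cast hcount
  have hQ1 : (1 : ℝ) ≤ (h : ℝ) * (g - 1) + 1 := by nlinarith
  have hq0 : 0 ≤ q := Real.log_nonneg hQ1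
  have hQ0 : (0 : ℝ) < (h : ℝ) * (g - 1) + 1 := by linarith
  have hRpos : (0 : ℝ) < R := by exact_mod_cast hR1
  have hPpos' : (0 : ℝ) < P := by exact_mod_cast hPpos
  have hfac : (0 : ℝ) < h.factorial := by exact_mod_cast Nat.factorial_pos h
  have hlog := Real.log_le_log (by positivity) hcast
  rw [Real.log_pow, Real.log_mul (by positivity) (by positivity), Real.log_pow,
    Real.log_mul (by positivity) (by positivity), Real.log_mul (by positivity) (by positivity),
    Real.log_pow] at hlog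
  have hlogB : γ * m * lam ≤ Real.log B.ncard := by
    have := Real.log_le_log (by positivity) hBc
    rwa [Real.log_rpow hg0] at this
  have hlogP := log_partials m g (2 * K) x hx0 hx1 hPpos
  have hlog1 : Real.log (1 + g * x) ≤ g * x := by
    have := Real.log_le_sub_one_of_pos (x := 1 + g * x) (by positivity)
    linarith
  have hm0 : (0 : ℝ) ≤ m := by positivity
  have hlogP' : Real.log P ≤ m * (g * x) + (2 * (1 + κ * m * lam / Real.log 2)) * y := by
    refine hlogP.trans ?_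
    have h1 : (m : ℝ) * Real.log (1 + g * x) ≤ m * (g * x) := mul_le_mul_of_nonneg_left hlog1 hm0
    have h2 : ((2 * K : ℕ) : ℝ) * y ≤ (2 * (1 + κ * m * lam / Real.log 2)) * y := by
      apply mul_le_mul_of_nonneg_right _ hy0
      push_cast
      linarith
    exact add_le_add h1 h2
  have hJq : (J : ℝ) * q ≤ β * m * q := mul_le_mul_of_nonneg_right hπ hq0
  -- combine
  have hfinal : Δ * m ≤ Δ / 2 * m + C := by
    have e1 : (h : ℝ) * (γ * m * lam) ≤ h * (m * (g * x) + (2 * (1 + κ * m * lam / Real.log 2)) * y)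
        + (Real.log h.factorial + κ * m * lam + β * m * q) := by
      have a1 := mul_le_mul_of_nonneg_left hlogB hh0.le
      have a2 := mul_le_mul_of_nonneg_left hlogP' hh0.le
      linarith
    have e2 : (h : ℝ) * (m * (g * x) + (2 * (1 + κ * m * lam / Real.log 2)) * y)
        + (Real.log h.factorial + κ * m * lam + β * m * q)
        = (h * g * x) * m + κ * (2 * h * y * (lam / Real.log 2) + lam) * m + C + β * m * q := by
      rw [hC]; ring
    rw [e2, hκ1] at e1
    have e3 : h * g * x * m ≤ Δ / 4 * m := mul_le_mul_of_nonneg_right hx2 hm0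
    have e4 : Δ * m = h * (γ * m * lam) - β * m * q := by rw [hΔ]; ring
    linarith
  have hm1 : 2 * C / Δ < m := by
    have h1 : 2 * C / Δ ≤ ⌈2 * C / Δ⌉₊ := Nat.le_ceil _
    have h2 : ((⌈2 * C / Δ⌉₊ + 1 : ℕ) : ℝ) ≤ m := by exact_mod_cast hm
    push_cast at h2
    linarith
  rw [div_lt_iff₀ hΔ0] at hm1
  nlinarith

theorem chains_large (g h : ℕ) (hg : 2 ≤ g) (hh : 2 ≤ h) (γ β : ℝ) (hβ0 : 0 < β) (hβ1 : β ≤ 1)
    (hβγ : Real.log (1 + g * β) + g * β * Real.log (1 / β) < γ * Real.log g) :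
    ∃ κ : ℝ, 0 < κ ∧ ∃ m₀ : ℕ, ∀ m ≥ m₀, ∀ B : Set ℕ, FewChains g β m B →
      (g : ℝ) ^ (γ * m) ≤ B.ncard → ∃ n ≤ h * g ^ m, (g : ℝ) ^ (κ * m) ≤ rep B h n := by
  set lam := Real.log g with hlam
  have hg1 : (1 : ℝ) < g := by exact_mod_cast (by omega : 1 < g)
  have hlam0 : 0 < lam := Real.log_pos hg1
  have hl2 : 0 < Real.log 2 := Real.log_pos (by norm_num)
  have hg0 : (0 : ℝ) < g := by linarith
  set y := Real.log (1 / β) with hy
  have hy0 : 0 ≤ y := Real.log_nonneg (by rw [le_div_iff₀ hβ0]; linarith)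
  set Δ := γ * lam - (Real.log (1 + g * β) + g * β * y) with hΔ
  have hΔ0 : 0 < Δ := by linarith
  set κ := Δ / (2 * (4 * g * (y + 1) * (lam / Real.log 2))) with hκ
  have hκ0 : 0 < κ := by positivity
  have hκ1 : κ * (4 * g * (y + 1) * (lam / Real.log 2)) = Δ / 2 := by
    rw [hκ]; field_simp
  set C := 4 * g * y with hC
  refine ⟨κ, hκ0, ⌈2 * C / Δ⌉₊ + 1, ?_⟩
  intro m hm B hB hBc
  by_contra hcon
  push Not at hcon
  obtain ⟨D, p, hD, hDc, hBc'⟩ := hB
  obtain ⟨R, K, hR, hK, hR1, hlogR, hKle⟩ := floor_bounds hg κ hκ0 hcon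
  have hcount := chains_nat hh hg hD hBc' hR hK
  set T := g * ((m - D.card) + 4 * K) with hT
  have hBpos : (0 : ℝ) < B.ncard := lt_of_lt_of_le (by positivity) hBc
  have hPpos : 0 < (partials m g T).card := by
    have hBpos' : 0 < B.ncard := by exact_mod_cast hBpos
    omega
  have hDm : D.card ≤ m := by
    have : D ⊆ range m := fun k hk => Finset.mem_range.2 (hD.lt k hk).1
    simpa using Finset.card_le_card this
  have hcast : (B.ncard : ℝ) ≤ (partials m g T).card := by exact_mod_cast hcount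
  have hlog := Real.log_le_log hBpos hcast
  have hlogB : γ * m * lam ≤ Real.log B.ncard := by
    have := Real.log_le_log (by positivity) hBc
    rwa [Real.log_rpow hg0] at this
  have hlogP := log_partials m g T β hβ0 hβ1 hPpos
  have hm0 : (0 : ℝ) ≤ m := by positivity
  have hTle : (T : ℝ) ≤ g * (β * m + 4 * (1 + κ * m * lam / Real.log 2)) := by
    rw [hT]
    push_cast [Nat.cast_sub hDm]
    gcongr
  have hTy : (T : ℝ) * y ≤ g * (β * m + 4 * (1 + κ * m * lam / Real.log 2)) * y :=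
    mul_le_mul_of_nonneg_right hTle hy0
  have hfinal : Δ * m ≤ Δ / 2 * m + C := by
    have e1 : γ * m * lam ≤ m * Real.log (1 + g * β) +
        g * (β * m + 4 * (1 + κ * m * lam / Real.log 2)) * y := by linarith
    have e2 : m * Real.log (1 + g * β) +
        g * (β * m + 4 * (1 + κ * m * lam / Real.log 2)) * y
        = m * (Real.log (1 + g * β) + g * β * y) + C +
          κ * (4 * g * y * (lam / Real.log 2)) * m := by
      rw [hC]; ring
    have e3 : κ * (4 * g * y * (lam / Real.log 2)) * m ≤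
        κ * (4 * g * (y + 1) * (lam / Real.log 2)) * m := by
      gcongr
      linarith
    rw [hκ1] at e3
    have e4 : Δ * m = γ * m * lam - m * (Real.log (1 + g * β) + g * β * y) := by rw [hΔ]; ring
    linarith
  have hm1 : 2 * C / Δ < m := by
    have h1 : 2 * C / Δ ≤ ⌈2 * C / Δ⌉₊ := Nat.le_ceil _
    have h2 : ((⌈2 * C / Δ⌉₊ + 1 : ℕ) : ℝ) ≤ m := by exact_mod_cast hm
    push_cast at h2
    linarith
  rw [div_lt_iff₀ hΔ0] at hm1
  nlinarith

end H195.ET
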