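import Pool.Agent.H195.ET.Ana

namespace H195.ET
open Finset Filter

/-- The elements of `A` below `g ^ m` are covered by at most `g ^ (α m)` subsets of `A` with the
property `P`. -/
def Covered (g : ℕ) (α : ℝ) (m : ℕ) (P : Set ℕ → Prop) (A : Set ℕ) : Prop :=
  ∃ L : ℕ, (L : ℝ) ≤ (g : ℝ) ^ (α * m) ∧ ∃ B : Fin L → Set ℕ,
    (∀ l, B l ⊆ A ∧ P (B l)) ∧ ∀ a ∈ A, a < g ^ m → ∃ l, a ∈ B l

theorem exists_tuple {A : Set ℕ} {h n : ℕ} (hn : 1 ≤ rep A h n) :
    ∃ t : Fin h → ℕ, (∀ i, t i ∈ A ∧ t i ≤ n) ∧ ∑ i, t i = n := by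
  have hne : {s : Multiset ℕ | Multiset.card s = h ∧ (∀ a ∈ s, a ∈ A) ∧ s.sum = n}.Nonempty := by
    by_contra h0
    rw [Set.not_nonempty_iff_eq_empty] at h0
    rw [rep, h0, Set.ncard_empty] at hn
    omega
  obtain ⟨s, h1, h2, h3⟩ := hne
  revert h1 h2 h3
  rw [← Multiset.coe_toList s]
  generalize s.toList = l
  intro h1 h2 h3
  rw [Multiset.coe_card] at h1
  rw [Multiset.sum_coe] at h3
  subst h1
  refine ⟨fun i => l.get i, ?_, ?_⟩
  · intro i
    refine ⟨h2 _ (by simp), ?_⟩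
    have := List.single_le_sum (l := l) (fun _ _ => Nat.zero_le _) (l.get i) (List.get_mem l i)
    show l.get i ≤ n
    omega
  · rw [← h3, ← List.sum_ofFn]
    simp

theorem basis_count {A : Set ℕ} {h : ℕ} {n₀ : ℕ}
    (hA : ∀ n ≥ n₀, 1 ≤ rep A h n) (N : ℕ) :
    N ≤ {a | a ∈ A ∧ a < N}.ncard ^ h + n₀ := by
  classical
  have hfin : {a | a ∈ A ∧ a < N}.Finite := (Set.finite_lt_nat N).subset (fun a ha => ha.2)
  set F := hfin.toFinset with hF
  have hex : ∀ n ∈ Finset.Ico n₀ N, ∃ t : Fin h → ℕ, (∀ i, t i ∈ A ∧ t i ≤ n) ∧ ∑ i, t i = n := by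
    intro n hn
    exact exists_tuple (hA n (Finset.mem_Ico.1 hn).1)
  choose! t ht1 ht2 using hex
  have hcard : (Finset.Ico n₀ N).card ≤ (Fintype.piFinset (fun _ : Fin h => F)).card := by
    apply Finset.card_le_card_of_injOn t
    · intro n hn
      rw [Finset.mem_coe, Fintype.mem_piFinset]
      intro i
      rw [hF, Set.Finite.mem_toFinset]
      have h1 := ht1 n hn i
      have h2 := (Finset.mem_Ico.1 hn).2
      exact ⟨h1.1, by omega⟩
    · intro a ha b hb hab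
      rw [← ht2 a ha, ← ht2 b hb, hab]
  rw [Fintype.card_piFinset] at hcard
  simp only [Finset.prod_const, Finset.card_univ, Fintype.card_fin, Nat.card_Ico] at hcard
  rw [Set.ncard_eq_toFinset_card _ hfin, ← hF]
  omega

theorem rep_bound_basis {g h : ℕ} (hg : 2 ≤ g) {α γ : ℝ} (hαγ : h * (α + γ) < 1)
    (P : ℕ → Set ℕ → Prop) (hP : ∀ m B, P m B → ∀ a ∈ B, a < g ^ m)
    (H : ∃ κ : ℝ, 0 < κ ∧ ∃ m₀ : ℕ, ∀ m ≥ m₀, ∀ B : Set ℕ, P m B →
      (g : ℝ) ^ (γ * m) ≤ B.ncard → ∃ n ≤ h * g ^ m, (g : ℝ) ^ (κ * m) ≤ rep B h n)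
    {A : Set ℕ} (hA : ∀ᶠ n in atTop, 1 ≤ rep A h n)
    (hC : ∃ᶠ m : ℕ in atTop, Covered g α m (P m) A) :
    ∃ κ : ℝ, 0 < κ ∧ ∃ᶠ n : ℕ in atTop, (n : ℝ) ^ κ ≤ rep A h n := by
  obtain ⟨κ, hκ, m₀, hH⟩ := H
  obtain ⟨n₀, hn₀⟩ := eventually_atTop.1 hA
  refine ⟨κ / 2, by positivity, ?_⟩
  rw [frequently_atTop]
  intro N
  have hg1 : (1 : ℝ) < g := by exact_mod_cast (by omega : 1 < g)
  have hg0 : (0 : ℝ) < g := by linarith
  set δ := 1 - h * (α + γ) with hδ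
  have hδ0 : 0 < δ := by linarith
  set M : ℕ := ∑ n ∈ range N, rep A h n with hM
  -- eventual properties
  have ev1 : ∀ᶠ m : ℕ in atTop, (2 : ℝ) < (g : ℝ) ^ (δ * m) := by
    have : Tendsto (fun m : ℕ => (g : ℝ) ^ (δ * m)) atTop atTop := by
      have h1 : (fun m : ℕ => (g : ℝ) ^ (δ * m)) = fun m : ℕ => ((g : ℝ) ^ δ) ^ m := by
        funext m; rw [Real.rpow_mul hg0.le, Real.rpow_natCast]
      rw [h1]
      exact tendsto_pow_atTop_atTop_of_one_lt (Real.one_lt_rpow hg1 hδ0)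
    exact this.eventually_gt_atTop 2
  have ev2 : ∀ᶠ m : ℕ in atTop, (M : ℝ) < (g : ℝ) ^ (κ * m) := by
    have : Tendsto (fun m : ℕ => (g : ℝ) ^ (κ * m)) atTop atTop := by
      have h1 : (fun m : ℕ => (g : ℝ) ^ (κ * m)) = fun m : ℕ => ((g : ℝ) ^ κ) ^ m := by
        funext m; rw [Real.rpow_mul hg0.le, Real.rpow_natCast]
      rw [h1]
      exact tendsto_pow_atTop_atTop_of_one_lt (Real.one_lt_rpow hg1 hκ)
    exact this.eventually_gt_atTop _
  have ev3 : ∀ᶠ m : ℕ in atTop, m₀ ≤ m ∧ h ≤ m ∧ 2 * n₀ ≤ m :=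
    (eventually_ge_atTop m₀).and ((eventually_ge_atTop h).and (eventually_ge_atTop (2 * n₀)))
  obtain ⟨m, hcov, h1, h2, hm0, hmh, hmn⟩ := (hC.and_eventually (ev1.and (ev2.and ev3))).exists
  obtain ⟨L, hL, B, hB, hBcov⟩ := hcov
  have hgm : m < g ^ m := Nat.lt_pow_self (by omega)
  -- a large piece
  have hlarge : ∃ l, (g : ℝ) ^ (γ * m) ≤ (B l).ncard := by
    by_contra hcon
    push Not at hcon
    have hcount := basis_count hn₀ (g ^ m)
    set Am := {a | a ∈ A ∧ a < g ^ m} with hAm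
    have hfin : ∀ l, (B l).Finite := fun l =>
      (Set.finite_lt_nat (g ^ m)).subset (fun a ha => hP m _ (hB l).2 a ha)
    have hsub : Am ⊆ ((univ : Finset (Fin L)).biUnion (fun l => (hfin l).toFinset) : Finset ℕ) := by
      intro a ha
      obtain ⟨l, hl⟩ := hBcov a ha.1 ha.2
      rw [Finset.mem_coe, Finset.mem_biUnion]
      exact ⟨l, Finset.mem_univ _, (hfin l).mem_toFinset.2 hl⟩
    have hAm1 : Am.ncard ≤ ∑ l : Fin L, (B l).ncard := by
      refine (Set.ncard_le_ncard hsub (Finset.finite_toSet _)).trans ?_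
      rw [Set.ncard_coe_finset]
      refine Finset.card_biUnion_le.trans (le_of_eq ?_)
      apply Finset.sum_congr rfl
      intro l _
      rw [Set.ncard_eq_toFinset_card _ (hfin l)]
    have hAm2 : (Am.ncard : ℝ) ≤ (g : ℝ) ^ ((α + γ) * m) := by
      have e1 : (Am.ncard : ℝ) ≤ ∑ l : Fin L, ((B l).ncard : ℝ) := by exact_mod_cast hAm1
      have e2 : ∑ l : Fin L, ((B l).ncard : ℝ) ≤ ∑ _l : Fin L, (g : ℝ) ^ (γ * m) :=
        Finset.sum_le_sum (fun l _ => (hcon l).le)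
      rw [Finset.sum_const, nsmul_eq_mul, Finset.card_univ, Fintype.card_fin] at e2
      have e3 : (L : ℝ) * (g : ℝ) ^ (γ * m) ≤ (g : ℝ) ^ (α * m) * (g : ℝ) ^ (γ * m) :=
        mul_le_mul_of_nonneg_right hL (by positivity)
      rw [← Real.rpow_add hg0, ← add_mul] at e3
      linarith
    have hAm3 : ((g ^ m : ℕ) : ℝ) ≤ 2 * (Am.ncard : ℝ) ^ h := by
      have : g ^ m ≤ 2 * Am.ncard ^ h := by omega
      exact_mod_cast this
    have hAm4 : (Am.ncard : ℝ) ^ h ≤ (g : ℝ) ^ (h * (α + γ) * m) := by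
      calc (Am.ncard : ℝ) ^ h ≤ ((g : ℝ) ^ ((α + γ) * m)) ^ h :=
            pow_le_pow_left₀ (by positivity) hAm2 h
        _ = (g : ℝ) ^ (h * (α + γ) * m) := by
            rw [← Real.rpow_natCast, ← Real.rpow_mul hg0.le]
            congr 1; ring
    have hAm5 : ((g ^ m : ℕ) : ℝ) = (g : ℝ) ^ (δ * m) * (g : ℝ) ^ (h * (α + γ) * m) := by
      rw [← Real.rpow_add hg0, hδ]
      have : (1 - h * (α + γ)) * (m : ℝ) + h * (α + γ) * m = m := by ring
      rw [this, Real.rpow_natCast]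
      push_cast
      ring
    have hpos : 0 < (g : ℝ) ^ (h * (α + γ) * m) := by positivity
    rw [hAm5] at hAm3
    have : (g : ℝ) ^ (δ * m) * (g : ℝ) ^ (h * (α + γ) * m) ≤ 2 * (g : ℝ) ^ (h * (α + γ) * m) := by
      linarith
    have := le_of_mul_le_mul_right this hpos
    linarith
  obtain ⟨l, hl⟩ := hlarge
  obtain ⟨n, hn, hrep⟩ := hH m hm0 (B l) (hB l).2 hl
  have hrepA : (g : ℝ) ^ (κ * m) ≤ rep A h n :=
    hrep.trans (by exact_mod_cast rep_mono (hB l).1 h n)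
  refine ⟨n, ?_, ?_⟩
  · by_contra hlt
    push Not at hlt
    have e1 : rep A h n ≤ M := Finset.single_le_sum (f := fun n => rep A h n)
      (fun _ _ => Nat.zero_le _) (Finset.mem_range.2 hlt)
    have e2 : (rep A h n : ℝ) ≤ M := by exact_mod_cast e1
    linarith
  · refine le_trans ?_ hrepA
    have e1 : (n : ℝ) ≤ (g : ℝ) ^ ((2 : ℝ) * m) := by
      have : n ≤ g ^ m * g ^ m := hn.trans (Nat.mul_le_mul_right _ (by omega))
      have h3 : (n : ℝ) ≤ (g : ℝ) ^ m * (g : ℝ) ^ m := by exact_mod_cast this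
      refine h3.trans (le_of_eq ?_)
      rw [two_mul, Real.rpow_add hg0, Real.rpow_natCast]
    calc (n : ℝ) ^ (κ / 2) ≤ ((g : ℝ) ^ ((2 : ℝ) * m)) ^ (κ / 2) :=
          Real.rpow_le_rpow (by positivity) e1 (by positivity)
      _ = (g : ℝ) ^ (κ * m) := by
          rw [← Real.rpow_mul hg0.le]; congr 1; ring

end H195.ET
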