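import Mathlib

namespace H195.ET
open Finset

/-- `rep A h n` is the number `r_{A,h}(n)` of multisets of `h` elements of `A` with sum `n`. -/
noncomputable def rep (A : Set ℕ) (h n : ℕ) : ℕ :=
  {s : Multiset ℕ | Multiset.card s = h ∧ (∀ a ∈ s, a ∈ A) ∧ s.sum = n}.ncard

theorem reps_finite (A : Set ℕ) (h n : ℕ) :
    {s : Multiset ℕ | Multiset.card s = h ∧ (∀ a ∈ s, a ∈ A) ∧ s.sum = n}.Finite := by
  have hfin : (Set.range (fun f : Fin h → Fin (n + 1) => (List.ofFn (fun i => (f i : ℕ)) : Multiset ℕ))).Finite :=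
    Set.finite_range _
  refine hfin.subset ?_
  rintro s ⟨h1, -, h3⟩
  revert h1 h3
  rw [← Multiset.coe_toList s]
  generalize s.toList = l
  intro h1 h3
  rw [Multiset.coe_card] at h1
  rw [Multiset.sum_coe] at h3
  subst h1
  have hle : ∀ i : Fin l.length, l.get i < n + 1 := by
    intro i
    have := List.single_le_sum (l := l) (fun _ _ => Nat.zero_le _) (l.get i) (List.get_mem l i)
    omega
  refine ⟨fun i => ⟨l.get i, hle i⟩, ?_⟩
  simp

theorem rep_mono {A B : Set ℕ} (hAB : B ⊆ A) (h n : ℕ) : rep B h n ≤ rep A h n := by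
  apply Set.ncard_le_ncard _ (reps_finite A h n)
  rintro s ⟨h1, h2, h3⟩
  exact ⟨h1, fun a ha => hAB (h2 a ha), h3⟩

/-- An involution-symmetric family of elements gives many representations. -/
theorem cube_rep {A : Set ℕ} {h : ℕ} (hh : 2 ≤ h) {ι : Type*} [DecidableEq ι] (I : Finset ι)
    (x : ι → ℕ) (cmp : ι → ι)
    (hx : ∀ t ∈ I, x t ∈ A) (hc : ∀ t ∈ I, cmp t ∈ I) (hinj : Set.InjOn x I)
    (n : ℕ) (hsum : ∀ t ∈ I, x t + x (cmp t) = n) (a0 : ℕ) (ha0 : a0 ∈ A) :
    I.card ≤ 2 * rep A h (n + (h - 2) * a0) := by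
  classical
  set F : ι → Multiset ℕ := fun t => x t ::ₘ (x (cmp t) ::ₘ Multiset.replicate (h - 2) a0) with hF
  have hmap : ∀ t ∈ I, F t ∈ {s : Multiset ℕ | Multiset.card s = h ∧ (∀ a ∈ s, a ∈ A) ∧
      s.sum = n + (h - 2) * a0} := by
    intro t ht
    refine ⟨?_, ?_, ?_⟩
    · simp [hF]; omega
    · intro a ha
      simp only [hF, Multiset.mem_cons] at ha
      rcases ha with rfl | rfl | ha
      · exact hx t ht
      · exact hx _ (hc t ht)
      · rw [Multiset.eq_of_mem_replicate ha]; exact ha0
    · simp only [hF, Multiset.sum_cons, Multiset.sum_replicate, smul_eq_mul]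
      have := hsum t ht
      omega
  have hfib : ∀ s ∈ I.image F, (I.filter (fun t => F t = s)).card ≤ 2 := by
    intro s hs
    obtain ⟨t0, ht0, rfl⟩ := Finset.mem_image.1 hs
    have hsub : I.filter (fun t => F t = F t0) ⊆
        I.filter (fun t => x t = x t0) ∪ I.filter (fun t => x t = x (cmp t0)) := by
      intro t ht
      rw [Finset.mem_filter] at ht
      obtain ⟨htI, htF⟩ := ht
      have h1 : x t ::ₘ {x (cmp t)} = x t0 ::ₘ ({x (cmp t0)} : Multiset ℕ) := by
        have e1 : F t = (x t ::ₘ {x (cmp t)}) + Multiset.replicate (h - 2) a0 := by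
          simp [hF]
        have e2 : F t0 = (x t0 ::ₘ {x (cmp t0)}) + Multiset.replicate (h - 2) a0 := by
          simp [hF]
        rw [e1, e2] at htF
        exact add_right_cancel htF
      have h2 : x t ∈ x t0 ::ₘ ({x (cmp t0)} : Multiset ℕ) := by
        rw [← h1]; simp
      rw [Multiset.mem_cons, Multiset.mem_singleton] at h2
      rw [Finset.mem_union, Finset.mem_filter, Finset.mem_filter]
      tauto
    have hone : ∀ v, (I.filter (fun t => x t = v)).card ≤ 1 := by
      intro v
      rw [Finset.card_le_one]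
      intro a ha b hb
      rw [Finset.mem_filter] at ha hb
      exact hinj ha.1 hb.1 (ha.2.trans hb.2.symm)
    calc _ ≤ _ := Finset.card_le_card hsub
      _ ≤ _ := Finset.card_union_le _ _
      _ ≤ 1 + 1 := Nat.add_le_add (hone _) (hone _)
      _ = 2 := rfl
  have h1 : I.card ≤ 2 * (I.image F).card :=
    Finset.card_le_mul_card_image I 2 hfib
  have h2 : (I.image F).card ≤ rep A h (n + (h - 2) * a0) := by
    rw [rep, ← Set.ncard_coe_finset]
    apply Set.ncard_le_ncard _ (reps_finite A h _)
    intro s hs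
    rw [Finset.mem_coe, Finset.mem_image] at hs
    obtain ⟨t, ht, rfl⟩ := hs
    exact hmap t ht
  omega

/-- The number of `h`-tuples of elements of `B` with sum `n` is at most `h! r_{B,h}(n)`. -/
theorem tuples_le {B : Set ℕ} (h n : ℕ) (I : Finset (Fin h → ℕ))
    (hI : ∀ t ∈ I, (∀ i, t i ∈ B) ∧ ∑ i, t i = n) :
    I.card ≤ h.factorial * rep B h n := by
  classical
  set F : (Fin h → ℕ) → Multiset ℕ := fun t => (List.ofFn t : Multiset ℕ) with hF
  have hfib : ∀ s ∈ I.image F, (I.filter (fun t => F t = s)).card ≤ h.factorial := by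
    intro s hs
    obtain ⟨t0, ht0, rfl⟩ := Finset.mem_image.1 hs
    have : (I.filter (fun t => F t = F t0)).card ≤ ((List.ofFn t0).permutations.toFinset).card := by
      apply Finset.card_le_card_of_injOn (fun t => List.ofFn t)
      · intro t ht
        rw [Finset.mem_coe, Finset.mem_filter] at ht
        rw [Finset.mem_coe, List.mem_toFinset, List.mem_permutations]
        exact Multiset.coe_eq_coe.1 ht.2
      · intro a _ b _ hab
        exact List.ofFn_injective hab
    refine this.trans ((List.toFinset_card_le _).trans ?_)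
    rw [List.length_permutations, List.length_ofFn]
  have h1 : I.card ≤ h.factorial * (I.image F).card :=
    Finset.card_le_mul_card_image I _ hfib
  have h2 : (I.image F).card ≤ rep B h n := by
    rw [rep, ← Set.ncard_coe_finset]
    apply Set.ncard_le_ncard _ (reps_finite B h _)
    intro s hs
    rw [Finset.mem_coe, Finset.mem_image] at hs
    obtain ⟨t, ht, rfl⟩ := hs
    refine ⟨by simp [hF], ?_, ?_⟩
    · intro a ha
      simp only [hF, Multiset.mem_coe, List.mem_ofFn] at ha
      obtain ⟨i, rfl⟩ := ha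
      exact (hI t ht).1 i
    · simp only [hF, Multiset.sum_coe, List.sum_ofFn]
      exact (hI t ht).2
  exact h1.trans (Nat.mul_le_mul_left _ h2)

/-- The partial functions from `Fin m` to `Fin g` with a domain of at most `T` elements. -/
def partials (m g T : ℕ) : Finset (Fin m → Option (Fin g)) :=
  univ.filter (fun f => (univ.filter (fun k => f k ≠ none)).card ≤ T)

/-- The number of partial functions from `Fin m` to `Fin g` with small domain. -/
theorem partial_count (m g T : ℕ) (x : ℝ) (hx0 : 0 < x) (hx1 : x ≤ 1) :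
    ((partials m g T).card : ℝ) * x ^ T ≤ (1 + g * x) ^ m := by
  classical
  have key : ∑ f : Fin m → Option (Fin g), x ^ (univ.filter (fun k => f k ≠ none)).card
      = (1 + g * x) ^ m := by
    have h1 : ∀ f : Fin m → Option (Fin g), x ^ (univ.filter (fun k => f k ≠ none)).card
        = ∏ k, (if f k = none then (1:ℝ) else x) := by
      intro f
      rw [Finset.prod_ite]
      simp
    simp_rw [h1]
    have h2 := Finset.prod_univ_sum (t := fun _ : Fin m => (univ : Finset (Option (Fin g))))
      (f := fun _ o => if o = none then (1:ℝ) else x)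
    rw [Fintype.piFinset_univ] at h2
    rw [← h2]
    simp [Fintype.sum_option]
  rw [← key]
  have e1 : ((partials m g T).card : ℝ) * x ^ T = ∑ f ∈ partials m g T, x ^ T := by
    rw [Finset.sum_const, nsmul_eq_mul]
  rw [e1]
  have e2 : ∑ f ∈ partials m g T, x ^ T ≤
      ∑ f ∈ partials m g T, x ^ (univ.filter (fun k => f k ≠ none)).card := by
    apply Finset.sum_le_sum
    intro f hf
    rw [partials, Finset.mem_filter] at hf
    exact pow_le_pow_of_le_one hx0.le hx1 hf.2
  refine e2.trans ?_
  apply Finset.sum_le_univ_sum_of_nonneg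
  intro f
  positivity

end H195.ET
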