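import Pool.Agent.H195.ET.Words

namespace H195.ET
open Finset

variable {m g : ℕ}

theorem exists_code {W : Finset (Fin m → Fin g)} {h J : ℕ} (hh : 2 ≤ h) (hg : 2 ≤ g)
    (π : Fin m → Fin J)
    (hW : ∀ w ∈ W, ∀ i j, π i = π j → w i ≠ w j → w ∘ Equiv.swap i j ∈ W)
    {R K : ℕ} (hR : ∀ n ≤ h * g ^ m, rep (val '' (W : Set (Fin m → Fin g))) h n ≤ R)
    (hK : 2 * R < 2 ^ (K + 1)) {w : Fin m → Fin g} (hw : w ∈ W) :
    ∃ (f : Fin m → Option (Fin g)) (c : Fin J → Fin g), f ∈ partials m g (2 * K) ∧
      ∀ k, w k = (f k).getD (c (π k)) := by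
  classical
  obtain ⟨S, hS, hcov⟩ := exists_cover (fun i j a b => π i = π j ∧ a ≠ b)
    (W := (W : Set (Fin m → Fin g))) hh
    (fun i j a b hab => hab.2) (fun w hw i j hij => hW w hw i j hij.1 hij.2) hR hK hw
  let c : Fin J → Fin g := fun j =>
    if hj : ∃ k, k ∉ S ∧ π k = j then w hj.choose else ⟨0, by omega⟩
  refine ⟨fun k => if k ∈ S then some (w k) else none, c, ?_, ?_⟩
  · rw [partials, Finset.mem_filter]
    refine ⟨Finset.mem_univ _, ?_⟩
    have : (univ.filter (fun k : Fin m => (if k ∈ S then some (w k) else none) ≠ none)) ⊆ S := by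
      intro k hk
      rw [Finset.mem_filter] at hk
      by_contra hkS
      exact hk.2 (by simp [hkS])
    exact (Finset.card_le_card this).trans hS
  · intro k
    by_cases hk : k ∈ S
    · simp [hk]
    · simp only [hk, if_false, Option.getD_none]
      have hex : ∃ k', k' ∉ S ∧ π k' = π k := ⟨k, hk, rfl⟩
      have hc : c (π k) = w hex.choose := by
        simp only [c]
        rw [dif_pos hex]
      rw [hc]
      have hsp := hex.choose_spec
      by_contra hne
      rcases hcov hex.choose k ⟨hsp.2, fun h => hne h.symm⟩ with h1 | h1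
      · exact hsp.1 h1
      · exact hk h1

theorem count_blocks {W : Finset (Fin m → Fin g)} {h J : ℕ} (hh : 2 ≤ h) (hg : 2 ≤ g)
    (π : Fin m → Fin J)
    (hW : ∀ w ∈ W, ∀ i j, π i = π j → w i ≠ w j → w ∘ Equiv.swap i j ∈ W)
    {R K : ℕ} (hR : ∀ n ≤ h * g ^ m, rep (val '' (W : Set (Fin m → Fin g))) h n ≤ R)
    (hK : 2 * R < 2 ^ (K + 1)) :
    W.card ^ h ≤ (partials m g (2 * K)).card ^ h *
      ((h.factorial * R) * (h * (g - 1) + 1) ^ J) := by
  classical
  have hex := fun w (hw : w ∈ W) => exists_code hh hg π hW hR hK hw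
  haveI : Nonempty (Fin J → Fin g) := ⟨fun _ => ⟨0, by omega⟩⟩
  haveI : Nonempty (Fin m → Option (Fin g)) := ⟨fun _ => none⟩
  choose! f c hf hc using hex
  -- fibres
  have hfib : ∀ f0 ∈ partials m g (2 * K),
      (W.filter (fun w => f w = f0)).card ^ h ≤ (h.factorial * R) * (h * (g - 1) + 1) ^ J := by
    intro f0 _
    set V := W.filter (fun w => f w = f0) with hV
    have hcard : (Fintype.piFinset (fun _ : Fin h => V)).card = V.card ^ h := by
      rw [Fintype.card_piFinset]; simp
    rw [← hcard]
    set s : (Fin h → (Fin m → Fin g)) → (Fin J → Fin (h * (g - 1) + 1)) := fun t j =>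
      ⟨∑ i, (c (t i) j : ℕ), by
        have : ∑ i : Fin h, (c (t i) j : ℕ) ≤ ∑ _i : Fin h, (g - 1) := by
          apply Finset.sum_le_sum
          intro i _
          have := (c (t i) j).isLt
          omega
        simp at this
        omega⟩ with hs
    have huniv : (univ : Finset (Fin J → Fin (h * (g - 1) + 1))).card = (h * (g - 1) + 1) ^ J := by
      simp
    rw [← huniv]
    apply Finset.card_le_mul_card_image_of_maps_to (f := s) (fun _ _ => Finset.mem_univ _)
    intro b _
    -- fibre of `s`
    set I := (Fintype.piFinset (fun _ : Fin h => V)).filter (fun t => s t = b) with hI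
    -- the sum of the values
    set n0 : ℕ := ∑ k : Fin m, ((f0 k).elim ((b (π k) : ℕ)) (fun v => h * (v : ℕ))) * g ^ (k : ℕ)
      with hn0
    have hval : ∀ t ∈ I, ∑ i, val (t i) = n0 := by
      intro t ht
      rw [hI, Finset.mem_filter, Fintype.mem_piFinset] at ht
      obtain ⟨ht1, ht2⟩ := ht
      unfold val
      rw [Finset.sum_comm, hn0]
      apply Finset.sum_congr rfl
      intro k _
      rw [← Finset.sum_mul]
      congr 1
      have hb : (b (π k) : ℕ) = ∑ i, (c (t i) (π k) : ℕ) := by
        rw [← ht2]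
      have hk : ∀ i, (t i k) = (f0 k).getD (c (t i) (π k)) := by
        intro i
        have h1 := ht1 i
        rw [hV, Finset.mem_filter] at h1
        rw [hc (t i) h1.1 k, h1.2]
      cases hfk : f0 k with
      | none =>
        simp only [Option.elim_none]
        rw [hb]
        apply Finset.sum_congr rfl
        intro i _
        rw [hk i, hfk, Option.getD_none]
      | some v =>
        simp only [Option.elim_some]
        have : ∀ i : Fin h, (t i k : ℕ) = v := by
          intro i
          rw [hk i, hfk, Option.getD_some]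
        simp [this]
    have htup := tuples_le (B := val '' (W : Set (Fin m → Fin g))) h n0
      (I.image (fun t i => val (t i))) (by
        intro t ht
        rw [Finset.mem_image] at ht
        obtain ⟨t', ht', rfl⟩ := ht
        refine ⟨?_, hval t' ht'⟩
        intro i
        rw [hI, Finset.mem_filter, Fintype.mem_piFinset] at ht'
        have := ht'.1 i
        rw [hV, Finset.mem_filter] at this
        exact ⟨t' i, this.1, rfl⟩)
    have hinj : Set.InjOn (fun (t : Fin h → (Fin m → Fin g)) i => val (t i)) (I : Set _) := by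
      intro t _ t' _ h1
      funext i
      exact val_inj (congrFun h1 i)
    rw [Finset.card_image_of_injOn hinj] at htup
    by_cases hIe : I = ∅
    · rw [hIe]; simp
    · obtain ⟨t, ht⟩ := Finset.nonempty_iff_ne_empty.2 hIe
      have hn : n0 ≤ h * g ^ m := by
        rw [← hval t ht]
        calc ∑ i : Fin h, val (t i) ≤ ∑ _i : Fin h, g ^ m :=
              Finset.sum_le_sum (fun i _ => (val_lt (t i)).le)
          _ = _ := by simp
      exact htup.trans (Nat.mul_le_mul_left _ (hR n0 hn))
  -- sum over the codes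
  by_cases hWe : W = ∅
  · subst hWe
    have : 0 < h := by omega
    simp [this.ne']
  obtain ⟨w0, hw0⟩ := Finset.nonempty_iff_ne_empty.2 hWe
  have hne : (partials m g (2 * K)).Nonempty := ⟨f w0, hf w0 hw0⟩
  obtain ⟨f0, hf0, hmax⟩ := Finset.exists_max_image (partials m g (2 * K))
    (fun f0 => (W.filter (fun w => f w = f0)).card) hne
  have h1 : W.card ≤ (W.filter (fun w => f w = f0)).card * (partials m g (2 * K)).card := by
    apply Finset.card_le_mul_card_image_of_maps_to (f := f) hf
    intro b hb
    exact hmax b hb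
  calc W.card ^ h ≤ ((W.filter (fun w => f w = f0)).card * (partials m g (2 * K)).card) ^ h :=
        Nat.pow_le_pow_left h1 h
    _ = (partials m g (2 * K)).card ^ h * (W.filter (fun w => f w = f0)).card ^ h := by
        rw [mul_pow, mul_comm]
    _ ≤ _ := Nat.mul_le_mul_left _ (hfib f0 hf0)

theorem count_chains {W : Finset (Fin m → Fin g)} {h : ℕ} (hh : 2 ≤ h) (hg : 2 ≤ g)
    (D : Finset (Fin m)) (p : Fin m → Fin m) (ρ : Fin m → ℕ)
    (hp : Set.InjOn p D) (hρ : ∀ k ∈ D, ρ (p k) < ρ k)
    (hW : ∀ w ∈ W, ∀ k ∈ D, w (p k) < w k → w ∘ Equiv.swap (p k) k ∈ W)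
    {R K : ℕ} (hR : ∀ n ≤ h * g ^ m, rep (val '' (W : Set (Fin m → Fin g))) h n ≤ R)
    (hK : 2 * R < 2 ^ (K + 1)) :
    W.card ≤ (partials m g (g * ((m - D.card) + 4 * K))).card := by
  classical
  let Rc : (Fin m → Fin g) → Finset (Fin m) := fun w =>
    univ.filter (fun k => k ∉ D ∨ w (p k) ≠ w k)
  let f : (Fin m → Fin g) → (Fin m → Option (Fin g)) := fun w k =>
    if k ∈ Rc w then some (w k) else none
  have hDc : (univ.filter (fun k => k ∉ D)).card = m - D.card := by
    rw [Finset.filter_not, Finset.card_sdiff_of_subset (Finset.filter_subset _ _)]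
    simp
  apply Finset.card_le_card_of_injOn f
  · intro w hw
    rw [Finset.mem_coe] at hw
    rw [Finset.mem_coe, partials, Finset.mem_filter]
    refine ⟨Finset.mem_univ _, ?_⟩
    have hsub : (univ.filter (fun k => f w k ≠ none)) ⊆ Rc w := by
      intro k hk
      rw [Finset.mem_filter] at hk
      by_contra hkS
      exact hk.2 (by simp [f, hkS])
    refine (Finset.card_le_card hsub).trans ?_
    obtain ⟨S, hS, hcov⟩ := exists_cover (fun i j a b => (j ∈ D ∧ p j = i) ∧ a < b)
      (W := (W : Set (Fin m → Fin g))) hh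
      (fun i j a b hab => hab.2.ne)
      (fun w hw i j hij => by
        obtain ⟨⟨h1, h2⟩, h3⟩ := hij
        subst h2
        exact hW w hw j h1 h3) hR hK hw
    set Up := D.filter (fun k => w (p k) < w k) with hUp
    set Dn := D.filter (fun k => w k < w (p k)) with hDn
    have hUpc : Up.card ≤ 4 * K := by
      have hU : Up ⊆ S ∪ D.filter (fun k => p k ∈ S) := by
        intro k hk
        rw [hUp, Finset.mem_filter] at hk
        rcases hcov (p k) k ⟨⟨hk.1, rfl⟩, hk.2⟩ with h1 | h1
        · exact Finset.mem_union_right _ (Finset.mem_filter.2 ⟨hk.1, h1⟩)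
        · exact Finset.mem_union_left _ h1
      have h2 : (D.filter (fun k => p k ∈ S)).card ≤ S.card := by
        apply Finset.card_le_card_of_injOn p
        · intro k hk
          rw [Finset.mem_coe, Finset.mem_filter] at hk
          exact hk.2
        · intro a ha b hb hab
          rw [Finset.mem_coe, Finset.mem_filter] at ha hb
          exact hp ha.1 hb.1 hab
      have h3 := (Finset.card_le_card hU).trans (Finset.card_union_le _ _)
      omega
    -- telescoping
    have hg1 : ∀ k, (w k : ℤ) ≤ g - 1 := by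
      intro k
      have := (w k).isLt
      omega
    have e1 : ∑ k ∈ D, (w (p k) : ℤ) ≤ ∑ k, (w k : ℤ) := by
      rw [← Finset.sum_image (s := D) (g := p) (f := fun k => (w k : ℤ)) hp]
      apply Finset.sum_le_univ_sum_of_nonneg
      intro k
      positivity
    have e2 : ∑ k, (w k : ℤ) ≤ ∑ k ∈ D, (w k : ℤ) + (g - 1) * (m - D.card : ℕ) := by
      have h1 : ∑ k, (w k : ℤ) = ∑ k ∈ D, (w k : ℤ) + ∑ k ∈ univ.filter (fun k => k ∉ D), (w k : ℤ) := by
        rw [← Finset.sum_filter_add_sum_filter_not univ (fun k => k ∈ D)]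
        simp
      have h2 : ∑ k ∈ univ.filter (fun k => k ∉ D), (w k : ℤ) ≤
          ∑ _k ∈ univ.filter (fun k => k ∉ D), ((g : ℤ) - 1) :=
        Finset.sum_le_sum (fun k _ => hg1 k)
      rw [Finset.sum_const, hDc, nsmul_eq_mul] at h2
      linarith
    have e3 : (Dn.card : ℤ) ≤ ∑ k ∈ D, ((w (p k) : ℤ) - (w k : ℤ)) + (g - 1) * Up.card := by
      have h1 : (Dn.card : ℤ) = ∑ k ∈ D, (if w k < w (p k) then (1 : ℤ) else 0) := by
        rw [hDn, Finset.sum_ite]; simp
      have h2 : (Up.card : ℤ) = ∑ k ∈ D, (if w (p k) < w k then (1 : ℤ) else 0) := by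
        rw [hUp, Finset.sum_ite]; simp
      rw [h1, h2, Finset.mul_sum, ← Finset.sum_add_distrib]
      apply Finset.sum_le_sum
      intro k _
      have ha := hg1 k
      have hb := hg1 (p k)
      have hc0 : (0 : ℤ) ≤ w k := by positivity
      have hd0 : (0 : ℤ) ≤ w (p k) := by positivity
      by_cases hlt : w k < w (p k)
      · have h3 : ¬ w (p k) < w k := not_lt.2 hlt.le
        have h4 : ((w k : ℕ) : ℤ) < (w (p k) : ℕ) := by exact_mod_cast hlt
        simp only [hlt, h3, if_true, if_false]
        linarith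
      · by_cases hgt : w (p k) < w k
        · simp only [hlt, hgt, if_true, if_false]
          linarith
        · have h5 : w k = w (p k) := le_antisymm (not_lt.1 hgt) (not_lt.1 hlt)
          simp only [hlt, hgt, if_false]
          rw [h5]
          simp
    rw [Finset.sum_sub_distrib] at e3
    have e4 : (Rc w).card ≤ (m - D.card) + Up.card + Dn.card := by
      have hR' : Rc w ⊆ (univ.filter (fun k => k ∉ D)) ∪ Up ∪ Dn := by
        intro k hk
        rw [Finset.mem_filter] at hk
        by_cases hkD : k ∈ D
        · rcases hk.2 with h1 | h1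
          · exact absurd hkD h1
          · rcases lt_or_gt_of_ne h1 with h2 | h2
            · exact Finset.mem_union_left _ (Finset.mem_union_right _
                (Finset.mem_filter.2 ⟨hkD, h2⟩))
            · exact Finset.mem_union_right _ (Finset.mem_filter.2 ⟨hkD, h2⟩)
        · exact Finset.mem_union_left _ (Finset.mem_union_left _ (by simp [hkD]))
      refine (Finset.card_le_card hR').trans ((Finset.card_union_le _ _).trans ?_)
      have := Finset.card_union_le (univ.filter (fun k => k ∉ D)) Up
      rw [hDc] at this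
      omega
    zify
    zify at e4 hUpc
    have hgz : (0 : ℤ) ≤ (g : ℤ) - 1 := by omega
    have e5 : ((g : ℤ) - 1) * Up.card ≤ (g - 1) * (4 * K) :=
      mul_le_mul_of_nonneg_left hUpc hgz
    push_cast at *
    nlinarith [e1, e2, e3, e4, e5, hUpc]
  · intro w hw w' hw' hff
    have hRc : ∀ k, (k ∈ Rc w ↔ k ∈ Rc w') ∧ (k ∈ Rc w → w k = w' k) := by
      intro k
      have hk : f w k = f w' k := congrFun hff k
      simp only [f] at hk
      by_cases h1 : k ∈ Rc w <;> by_cases h2 : k ∈ Rc w'
      · rw [if_pos h1, if_pos h2] at hk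
        exact ⟨by tauto, fun _ => Option.some_injective _ hk⟩
      · rw [if_pos h1, if_neg h2] at hk
        exact absurd hk (by simp)
      · rw [if_neg h1, if_pos h2] at hk
        exact absurd hk (by simp)
      · exact ⟨by tauto, fun h => absurd h h1⟩
    have main : ∀ N, ∀ k, ρ k < N → w k = w' k := by
      intro N
      induction N with
      | zero => intro k hk; omega
      | succ N ih =>
        intro k hk
        by_cases h1 : k ∈ Rc w
        · exact (hRc k).2 h1
        · have h2 : k ∉ Rc w' := fun h => h1 ((hRc k).1.2 h)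
          simp only [Rc, Finset.mem_filter, Finset.mem_univ, true_and, not_or, not_not] at h1 h2
          rw [← h1.2, ← h2.2]
          apply ih
          have := hρ k h1.1
          omega
    funext k
    exact main _ k (Nat.lt_succ_self _)

end H195.ET
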