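import Pool.Agent.H195.ET.Count

namespace H195.ET
open Finset

/-- The digit of `a` at the place `i`, in base `g`. -/
def dig (g a i : ℕ) : ℕ := a / g ^ i % g

/-- `b` is obtained from `a` by exchanging the digits at the places `i` and `j`. -/
def Exchange (g i j a b : ℕ) : Prop :=
  dig g b i = dig g a j ∧ dig g b j = dig g a i ∧
    ∀ k, k ≠ i → k ≠ j → dig g b k = dig g a k

/-- `B` is a set of numbers below `g ^ m`, and the exchange of two digits of an element of `B`, at
places `i, j < m` of the same class `π i = π j`, always gives an element of `B`. -/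
def BlockClosed (g m : ℕ) (π : ℕ → ℕ) (B : Set ℕ) : Prop :=
  ∀ a ∈ B, a < g ^ m ∧
    ∀ i < m, ∀ j < m, π i = π j → ∀ b, Exchange g i j a b → b ∈ B

/-- A system of `m - |D|` chains of places below `m`: every place `k ∈ D` has a predecessor `p k`,
different places have different predecessors, and there are no cycles. -/
structure Chains (m : ℕ) (D : Finset ℕ) (p : ℕ → ℕ) : Prop where
  lt : ∀ k ∈ D, k < m ∧ p k < m
  inj : ∀ k ∈ D, ∀ l ∈ D, p k = p l → k = l
  acyclic : ∃ ρ : ℕ → ℕ, ∀ k ∈ D, ρ (p k) < ρ k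

/-- `B` is a set of numbers below `g ^ m`; if the digit of an element of `B` at some place
`k ∈ D` exceeds the digit at the preceding place `p k` of the chain, then the number obtained by
the exchange of these two digits belongs to `B`. -/
def SortClosed (g m : ℕ) (D : Finset ℕ) (p : ℕ → ℕ) (B : Set ℕ) : Prop :=
  ∀ a ∈ B, a < g ^ m ∧
    ∀ k ∈ D, dig g a (p k) < dig g a k → ∀ b, Exchange g (p k) k a b → b ∈ B

/-- `B` is closed under the exchange of digits in the same class, for some partition of the `m`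
places into at most `β m` classes. -/
def FewBlocks (g : ℕ) (β : ℝ) (m : ℕ) (B : Set ℕ) : Prop :=
  ∃ π : ℕ → ℕ, (((range m).image π).card : ℝ) ≤ β * m ∧ BlockClosed g m π B

/-- `B` is closed under sorting exchanges of neighbours in some system of at most `β m` chains. -/
def FewChains (g : ℕ) (β : ℝ) (m : ℕ) (B : Set ℕ) : Prop :=
  ∃ (D : Finset ℕ) (p : ℕ → ℕ), Chains m D p ∧ (m : ℝ) - D.card ≤ β * m ∧ SortClosed g m D p B

theorem dig_val {m g : ℕ} (w : Fin m → Fin g) (k : Fin m) : dig g (val w) k = w k := by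
  have h : finFunctionFinEquiv.symm (finFunctionFinEquiv w) k = w k := by simp
  have h2 := congrArg Fin.val h
  rw [← h2]
  rfl

theorem dig_val_ge {m g : ℕ} (hg : 2 ≤ g) (w : Fin m → Fin g) (k : ℕ) (hk : m ≤ k) :
    dig g (val w) k = 0 := by
  have h1 : val w < g ^ k := (val_lt w).trans_le (Nat.pow_le_pow_right (by omega) hk)
  rw [dig, Nat.div_eq_of_lt h1, Nat.zero_mod]

theorem exchange_swap {m g : ℕ} (hg : 2 ≤ g) (w : Fin m → Fin g) (i j : Fin m) :
    Exchange g i j (val w) (val (w ∘ Equiv.swap i j)) := by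
  refine ⟨?_, ?_, ?_⟩
  · rw [dig_val, dig_val, Function.comp_apply, Equiv.swap_apply_left]
  · rw [dig_val, dig_val, Function.comp_apply, Equiv.swap_apply_right]
  · intro k hi hj
    by_cases hk : k < m
    · have h1 := dig_val (w ∘ Equiv.swap i j) ⟨k, hk⟩
      have h2 := dig_val w ⟨k, hk⟩
      rw [Function.comp_apply, Equiv.swap_apply_of_ne_of_ne] at h1
      · exact h1.trans h2.symm
      · intro h; exact hi (congrArg Fin.val h)
      · intro h; exact hj (congrArg Fin.val h)
    · rw [dig_val_ge hg _ k (by omega), dig_val_ge hg _ k (by omega)]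

/-- The words of a set of numbers. -/
noncomputable def words (g m : ℕ) (B : Set ℕ) : Finset (Fin m → Fin g) := by
  classical exact univ.filter (fun w => val w ∈ B)

theorem mem_words {g m : ℕ} {B : Set ℕ} {w : Fin m → Fin g} : w ∈ words g m B ↔ val w ∈ B := by
  classical
  simp [words]

theorem exists_word {g m : ℕ} (a : ℕ) (ha : a < g ^ m) : ∃ w : Fin m → Fin g, val w = a :=
  ⟨finFunctionFinEquiv.symm ⟨a, ha⟩, by
    have : finFunctionFinEquiv (finFunctionFinEquiv.symm (⟨a, ha⟩ : Fin (g ^ m))) = ⟨a, ha⟩ := by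
      simp
    exact congrArg Fin.val this⟩

theorem image_words {g m : ℕ} {B : Set ℕ} (hB : ∀ a ∈ B, a < g ^ m) :
    val '' (words g m B : Set (Fin m → Fin g)) = B := by
  ext a
  constructor
  · rintro ⟨w, hw, rfl⟩
    exact mem_words.1 hw
  · intro ha
    obtain ⟨w, rfl⟩ := exists_word a (hB a ha)
    exact ⟨w, mem_words.2 ha, rfl⟩

theorem card_words {g m : ℕ} {B : Set ℕ} (hB : ∀ a ∈ B, a < g ^ m) :
    (words g m B).card = B.ncard := by
  conv_rhs => rw [← image_words hB]
  rw [Set.ncard_image_of_injective _ val_inj, Set.ncard_coe_finset]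

theorem blocks_nat {g h m : ℕ} (hh : 2 ≤ h) (hg : 2 ≤ g) {π : ℕ → ℕ} {B : Set ℕ}
    (hB : BlockClosed g m π B) {R K : ℕ} (hR : ∀ n ≤ h * g ^ m, rep B h n ≤ R)
    (hK : 2 * R < 2 ^ (K + 1)) :
    B.ncard ^ h ≤ (partials m g (2 * K)).card ^ h *
      ((h.factorial * R) * (h * (g - 1) + 1) ^ ((range m).image π).card) := by
  have hlt : ∀ a ∈ B, a < g ^ m := fun a ha => (hB a ha).1
  rw [← card_words hlt]
  set s := (range m).image π with hs
  have hmem : ∀ k : Fin m, π k ∈ s := fun k => Finset.mem_image_of_mem _ (by simp)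
  apply count_blocks hh hg (fun k => s.equivFin ⟨π k, hmem k⟩)
  · intro w hw i j hij _
    rw [mem_words] at hw ⊢
    have hπ : π i = π j := by
      have := s.equivFin.injective hij
      exact congrArg Subtype.val this
    exact (hB _ hw).2 i i.isLt j j.isLt hπ _ (exchange_swap hg w i j)
  · rw [image_words hlt]; exact hR
  · exact hK

theorem chains_nat {g h m : ℕ} (hh : 2 ≤ h) (hg : 2 ≤ g) {D : Finset ℕ} {p : ℕ → ℕ}
    (hC : Chains m D p) {B : Set ℕ}
    (hB : SortClosed g m D p B) {R K : ℕ} (hR : ∀ n ≤ h * g ^ m, rep B h n ≤ R)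
    (hK : 2 * R < 2 ^ (K + 1)) :
    B.ncard ≤ (partials m g (g * ((m - D.card) + 4 * K))).card := by
  classical
  have hlt : ∀ a ∈ B, a < g ^ m := fun a ha => (hB a ha).1
  rw [← card_words hlt]
  obtain ⟨ρ, hρ⟩ := hC.acyclic
  set D' : Finset (Fin m) := univ.filter (fun k => (k : ℕ) ∈ D) with hD'
  have hcard : D'.card = D.card := by
    apply Finset.card_bij (fun (k : Fin m) _ => (k : ℕ))
    · intro k hk
      exact (Finset.mem_filter.1 hk).2
    · intro a _ b _ hab
      exact Fin.ext hab
    · intro b hb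
      exact ⟨⟨b, (hC.lt b hb).1⟩, Finset.mem_filter.2 ⟨Finset.mem_univ _, hb⟩, rfl⟩
  set p' : Fin m → Fin m := fun k => if hk : p k < m then ⟨p k, hk⟩ else k with hp'
  have hp'v : ∀ k ∈ D', (p' k : ℕ) = p k := by
    intro k hk
    have := (hC.lt k (Finset.mem_filter.1 hk).2).2
    simp [hp', this]
  have hmain := count_chains (W := words g m B) hh hg D' p' (fun k => ρ k)
    (by
      intro a ha b hb hab
      have h1 := congrArg Fin.val hab
      rw [hp'v a ha, hp'v b hb] at h1
      exact Fin.ext (hC.inj a (Finset.mem_filter.1 ha).2 b (Finset.mem_filter.1 hb).2 h1))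
    (by
      intro k hk
      rw [hp'v k hk]
      exact hρ k (Finset.mem_filter.1 hk).2)
    (by
      intro w hw k hk hlt'
      rw [mem_words] at hw ⊢
      have h1 : dig g (val w) (p k) < dig g (val w) k := by
        rw [← hp'v k hk, dig_val, dig_val]
        exact hlt'
      refine (hB _ hw).2 k (Finset.mem_filter.1 hk).2 h1 _ ?_
      rw [← hp'v k hk]
      exact exchange_swap hg w (p' k) k)
    (R := R) (K := K) (by rw [image_words hlt]; exact hR) hK
  rwa [hcard] at hmain

end H195.ET
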