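import Pool.Agent.H195.ET.Core

namespace H195.ET
open Finset

variable {m g : ℕ}

/-- The number with the given digits. -/
def val (w : Fin m → Fin g) : ℕ := ∑ i, (w i : ℕ) * g ^ (i : ℕ)

theorem val_inj : Function.Injective (val : (Fin m → Fin g) → ℕ) := by
  intro a b h
  have : finFunctionFinEquiv a = finFunctionFinEquiv b := Fin.ext h
  exact finFunctionFinEquiv.injective this

theorem val_lt (w : Fin m → Fin g) : val w < g ^ m := (finFunctionFinEquiv w).isLt

/-- Disjointness of pairs of places. -/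
def Disj (p q : Fin m × Fin m) : Prop := p.1 ≠ q.1 ∧ p.1 ≠ q.2 ∧ p.2 ≠ q.1 ∧ p.2 ≠ q.2

variable (E : Fin m → Fin m → Fin g → Fin g → Prop)

theorem exists_swapped {W : Set (Fin m → Fin g)}
    (hE : ∀ i j a b, E i j a b → a ≠ b)
    (hW : ∀ w ∈ W, ∀ i j, E i j (w i) (w j) → w ∘ Equiv.swap i j ∈ W)
    {w : Fin m → Fin g} (hw : w ∈ W) (P : Finset (Fin m × Fin m))
    (hP : ∀ p ∈ P, E p.1 p.2 (w p.1) (w p.2))
    (hd : ∀ p ∈ P, ∀ q ∈ P, p ≠ q → Disj p q) :
    ∃ u ∈ W, (∀ k, (∀ p ∈ P, k ≠ p.1 ∧ k ≠ p.2) → u k = w k) ∧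
      ∀ p ∈ P, u p.1 = w p.2 ∧ u p.2 = w p.1 := by
  classical
  induction P using Finset.induction_on with
  | empty => exact ⟨w, hw, fun k _ => rfl, by simp⟩
  | insert q T hq ih =>
    obtain ⟨u, hu, h1, h2⟩ := ih (fun p hp => hP p (Finset.mem_insert_of_mem hp))
      (fun p hp q' hq' => hd p (Finset.mem_insert_of_mem hp) q' (Finset.mem_insert_of_mem hq'))
    have hdq : ∀ p ∈ T, Disj q p := by
      intro p hp
      exact hd q (Finset.mem_insert_self _ _) p (Finset.mem_insert_of_mem hp)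
        (fun h => hq (h ▸ hp))
    have e1 : u q.1 = w q.1 := h1 _ (fun p hp => ⟨(hdq p hp).1, (hdq p hp).2.1⟩)
    have e2 : u q.2 = w q.2 := h1 _ (fun p hp => ⟨(hdq p hp).2.2.1, (hdq p hp).2.2.2⟩)
    have hne : w q.1 ≠ w q.2 := hE _ _ _ _ (hP q (Finset.mem_insert_self _ _))
    have hEq : E q.1 q.2 (u q.1) (u q.2) := by
      rw [e1, e2]; exact hP q (Finset.mem_insert_self _ _)
    refine ⟨u ∘ Equiv.swap q.1 q.2, hW u hu _ _ hEq, ?_, ?_⟩
    · intro k hk
      have hkq := hk q (Finset.mem_insert_self _ _)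
      rw [Function.comp_apply, Equiv.swap_apply_of_ne_of_ne hkq.1 hkq.2]
      exact h1 k (fun p hp => hk p (Finset.mem_insert_of_mem hp))
    · intro p hp
      rw [Finset.mem_insert] at hp
      rcases hp with rfl | hp
      · rw [Function.comp_apply, Function.comp_apply, Equiv.swap_apply_left,
          Equiv.swap_apply_right]
        exact ⟨e2, e1⟩
      · have hd' := hdq p hp
        rw [Function.comp_apply, Function.comp_apply,
          Equiv.swap_apply_of_ne_of_ne hd'.1.symm hd'.2.2.1.symm,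
          Equiv.swap_apply_of_ne_of_ne hd'.2.1.symm hd'.2.2.2.symm]
        exact h2 p hp

theorem many_reps {W : Set (Fin m → Fin g)} {h : ℕ} (hh : 2 ≤ h)
    (hE : ∀ i j a b, E i j a b → a ≠ b)
    (hW : ∀ w ∈ W, ∀ i j, E i j (w i) (w j) → w ∘ Equiv.swap i j ∈ W)
    {w : Fin m → Fin g} (hw : w ∈ W) (P : Finset (Fin m × Fin m))
    (hP : ∀ p ∈ P, E p.1 p.2 (w p.1) (w p.2))
    (hd : ∀ p ∈ P, ∀ q ∈ P, p ≠ q → Disj p q) :
    ∃ n ≤ h * g ^ m, 2 ^ P.card ≤ 2 * rep (val '' W) h n := by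
  classical
  have hex : ∀ T ∈ P.powerset, ∃ u ∈ W, (∀ k, (∀ p ∈ T, k ≠ p.1 ∧ k ≠ p.2) → u k = w k) ∧
      ∀ p ∈ T, u p.1 = w p.2 ∧ u p.2 = w p.1 := by
    intro T hT
    rw [Finset.mem_powerset] at hT
    exact exists_swapped E hE hW hw T (fun p hp => hP p (hT hp))
      (fun p hp q hq => hd p (hT hp) q (hT hq))
  haveI : Nonempty (Fin m → Fin g) := ⟨w⟩
  choose! U hU1 hU2 hU3 using hex
  -- values on the pairs outside
  have hout : ∀ T ∈ P.powerset, ∀ p ∈ P, p ∉ T → U T p.1 = w p.1 ∧ U T p.2 = w p.2 := by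
    intro T hT p hp hpT
    have hT' := Finset.mem_powerset.1 hT
    have hdj : ∀ q ∈ T, Disj p q := fun q hq => hd p hp q (hT' hq) (fun h => hpT (h ▸ hq))
    exact ⟨hU2 T hT _ (fun q hq => ⟨(hdj q hq).1, (hdj q hq).2.1⟩),
      hU2 T hT _ (fun q hq => ⟨(hdj q hq).2.2.1, (hdj q hq).2.2.2⟩)⟩
  have hcmp : ∀ T ∈ P.powerset, P \ T ∈ P.powerset := by
    intro T hT
    rw [Finset.mem_powerset]
    exact Finset.sdiff_subset
  -- pointwise sums
  set full := U P with hfull
  have hPP : P ∈ P.powerset := Finset.mem_powerset_self P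
  have hpt : ∀ T ∈ P.powerset, ∀ k, (U T k : ℕ) + (U (P \ T) k : ℕ) = (w k : ℕ) + (full k : ℕ) := by
    intro T hT k
    have hT' := Finset.mem_powerset.1 hT
    by_cases hk : ∃ p ∈ P, k = p.1 ∨ k = p.2
    · obtain ⟨p, hp, hkp⟩ := hk
      have hf := hU3 P hPP p hp
      by_cases hpT : p ∈ T
      · have h1 := hU3 T hT p hpT
        have h2 := hout (P \ T) (hcmp T hT) p hp (by simp [hpT])
        rcases hkp with rfl | rfl
        · rw [h1.1, h2.1, hfull, hf.1, add_comm]
        · rw [h1.2, h2.2, hfull, hf.2, add_comm]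
      · have h1 := hout T hT p hp hpT
        have h2 := hU3 (P \ T) (hcmp T hT) p (by simp [hp, hpT])
        rcases hkp with rfl | rfl
        · rw [h1.1, h2.1, hfull, hf.1]
        · rw [h1.2, h2.2, hfull, hf.2]
    · push Not at hk
      rw [hU2 T hT k (fun p hp => hk p (hT' hp)),
        hU2 (P \ T) (hcmp T hT) k (fun p hp => hk p (Finset.sdiff_subset hp)),
        hfull, hU2 P hPP k hk]
  have hsum : ∀ T ∈ P.powerset, val (U T) + val (U (P \ T)) = val w + val full := by
    intro T hT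
    unfold val
    rw [← Finset.sum_add_distrib, ← Finset.sum_add_distrib]
    apply Finset.sum_congr rfl
    intro k _
    rw [← add_mul, ← add_mul, hpt T hT k]
  have hinj : Set.InjOn (fun T => val (U T)) (P.powerset : Set (Finset (Fin m × Fin m))) := by
    intro T hT T' hT' hv
    have hv' : U T = U T' := val_inj hv
    have hT1 := Finset.mem_powerset.1 hT
    have hT1' := Finset.mem_powerset.1 hT'
    have hne : ∀ p ∈ P, w p.1 ≠ w p.2 := fun p hp => hE _ _ _ _ (hP p hp)
    ext p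
    constructor
    · intro hp
      by_contra hp'
      have h1 := (hU3 T hT p hp).1
      have h2 := (hout T' hT' p (hT1 hp) hp').1
      rw [hv'] at h1
      exact hne p (hT1 hp) (h2.symm.trans h1)
    · intro hp
      by_contra hp'
      have h1 := (hU3 T' hT' p hp).1
      have h2 := (hout T hT p (hT1' hp) hp').1
      rw [← hv'] at h1
      exact hne p (hT1' hp) (h2.symm.trans h1)
  have hmain := cube_rep (A := val '' W) hh P.powerset (fun T => val (U T)) (fun T => P \ T)
    (fun T hT => ⟨U T, hU1 T hT, rfl⟩) hcmp hinj (val w + val full) hsum (val w) ⟨w, hw, rfl⟩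
  rw [Finset.card_powerset] at hmain
  refine ⟨_, ?_, hmain⟩
  have h1 := (val_lt w).le
  have h2 := (val_lt full).le
  obtain ⟨h', rfl⟩ : ∃ h', h = h' + 2 := ⟨h - 2, by omega⟩
  have h3 : (h' + 2 - 2) * val w ≤ h' * g ^ m := by
    rw [Nat.add_sub_cancel]; exact Nat.mul_le_mul_left _ h1
  calc _ ≤ g ^ m + g ^ m + h' * g ^ m := by omega
    _ = _ := by ring

theorem exists_cover {W : Set (Fin m → Fin g)} {h : ℕ} (hh : 2 ≤ h)
    (hE : ∀ i j a b, E i j a b → a ≠ b)
    (hW : ∀ w ∈ W, ∀ i j, E i j (w i) (w j) → w ∘ Equiv.swap i j ∈ W)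
    {R K : ℕ} (hR : ∀ n ≤ h * g ^ m, rep (val '' W) h n ≤ R) (hK : 2 * R < 2 ^ (K + 1))
    {w : Fin m → Fin g} (hw : w ∈ W) :
    ∃ S : Finset (Fin m), S.card ≤ 2 * K ∧ ∀ i j, E i j (w i) (w j) → i ∈ S ∨ j ∈ S := by
  classical
  set F : Finset (Finset (Fin m × Fin m)) := univ.filter (fun P =>
    (∀ p ∈ P, E p.1 p.2 (w p.1) (w p.2)) ∧ (∀ p ∈ P, ∀ q ∈ P, p ≠ q → Disj p q)) with hF
  have hne : F.Nonempty := ⟨∅, by simp [hF]⟩
  obtain ⟨P, hP, hmax⟩ := Finset.exists_max_image F Finset.card hne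
  rw [hF, Finset.mem_filter] at hP
  obtain ⟨-, hP1, hP2⟩ := hP
  obtain ⟨n, hn, hrep⟩ := many_reps E hh hE hW hw P hP1 hP2
  have hPK : P.card ≤ K := by
    by_contra hcon
    have h1 : 2 ^ (K + 1) ≤ 2 ^ P.card := Nat.pow_le_pow_right (by norm_num) (by omega)
    have h2 := hR n hn
    omega
  refine ⟨P.image Prod.fst ∪ P.image Prod.snd, ?_, ?_⟩
  · refine (Finset.card_union_le _ _).trans ?_
    have h1 := Finset.card_image_le (s := P) (f := Prod.fst)
    have h2 := Finset.card_image_le (s := P) (f := Prod.snd)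
    omega
  · intro i j hij
    by_contra hcon
    push Not at hcon
    obtain ⟨hi, hj⟩ := hcon
    have hi' : ∀ p ∈ P, i ≠ p.1 ∧ i ≠ p.2 := by
      intro p hp
      constructor
      · rintro rfl; exact hi (Finset.mem_union_left _ (Finset.mem_image_of_mem _ hp))
      · rintro rfl; exact hi (Finset.mem_union_right _ (Finset.mem_image_of_mem _ hp))
    have hj' : ∀ p ∈ P, j ≠ p.1 ∧ j ≠ p.2 := by
      intro p hp
      constructor
      · rintro rfl; exact hj (Finset.mem_union_left _ (Finset.mem_image_of_mem _ hp))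
      · rintro rfl; exact hj (Finset.mem_union_right _ (Finset.mem_image_of_mem _ hp))
    have hnot : (i, j) ∉ P := fun h => (hi' _ h).1 rfl
    have hins : insert (i, j) P ∈ F := by
      rw [hF, Finset.mem_filter]
      refine ⟨Finset.mem_univ _, ?_, ?_⟩
      · intro p hp
        rw [Finset.mem_insert] at hp
        rcases hp with rfl | hp
        · exact hij
        · exact hP1 p hp
      · intro p hp q hq hpq
        rw [Finset.mem_insert] at hp hq
        rcases hp with rfl | hp <;> rcases hq with rfl | hq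
        · exact absurd rfl hpq
        · exact ⟨(hi' q hq).1, (hi' q hq).2, (hj' q hq).1, (hj' q hq).2⟩
        · exact ⟨(hi' p hp).1.symm, (hj' p hp).1.symm, (hi' p hp).2.symm, (hj' p hp).2.symm⟩
        · exact hP2 p hp q hq hpq
    have := hmax _ hins
    rw [Finset.card_insert_of_notMem hnot] at this
    omega

end H195.ET
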